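import Mathlib
import Pool.Agent.U972.X2.Fin

/-!
# The `3`-part of the formula of Birch and Swinnerton-Dyer over `ℚ(√-3)` in the exceptional class

`K` is the field of the third roots of unity, `E_D` is the curve `y² + D y = x³`.  The starting file
`MP_e996df_nt/MajorityThreePart` treats the cube-free `D = 1, ω, ω²` modulo `3` outside of the
exceptional class (`D = 1` modulo `3` with norm `1` modulo `9`).  There both sides of the formula are
governed by the first-order terms of the elliptic sums; in the exceptional class these vanish.  Here `D`
is any cube-free nonunit `1` modulo `3` all of whose prime divisors have norm `1` modulo `9` (so that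
`D` is in the exceptional class).  The definitions are in `Pool/Agent/U972/X2/St.lean`.

* `OneCurve D`: `Law D`, the same statement as in the starting file: `L(E_D / K, s)` is entire and the
  quotient `ρ` of `L(E_D / K, 1)` and of the right-hand side of the conjecture (for rank `0`) without
  the order of `Ш` is integral above `3`, and a unit if and only if `E_D(K)` is finite and
  `Ш(E_D / K)[3^∞] = 0`.  This is the case exactly when `D` is not `1` modulo `9` and the Laplacian of
  the graph of the cubic residue symbols of the primes of `D` has nullity `1`; the rank of `E_D(K)` is at
  most `2 (nullity - 1)` for each `D` that is not `1` modulo `9`.  In the first case `E_1(F)` is finite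
  and `Ш(E_1 / F)[3^∞]` is killed by `3` for `F = K(∛D)`.
* `AnySets`: the law of the nullity, and the average of `3 ^ (rank / 2)`, for the `D = ∏ π k ^ e k`
  with the `π k` from ANY finite sets of primes that are `1` modulo `3 √-3`.
* `PrimeTwists`: the joint law of the twists of a family of such `D` by one prime.
-/

set_option autoImplicit false

namespace Pool.Agent.Results.MP_e996df_nt.ExceptionalClassPrimeSets

open NumberField
open Pool.Agent.U972.X2.St (InClass OneCurve AnySets PrimeTwists)

/-- **The `3`-part of the formula in the exceptional class, for primes from any sets.** -/
theorem result (K : Type) [Field K] [NumberField K] [IsCyclotomicExtension {3} ℚ K] :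
    (∀ D : 𝓞 K, InClass D → OneCurve D) ∧
    ∀ ω : 𝓞 K, ω ^ 2 + ω + 1 = 0 → AnySets ω ∧ PrimeTwists ω :=
  Pool.Agent.U972.X2.final K

end Pool.Agent.Results.MP_e996df_nt.ExceptionalClassPrimeSets
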