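import Mathlib
import Pool.Agent.U974.AW.Fld5
import Pool.Agent.Results.MP_4a9ea6_nt.TwoPartTwistsX49

/-!
# The 2-part of the conjecture of Birch and Swinnerton-Dyer for the twists of `X_0(49)` over the fields generated by
# the square roots of prime tuples, for a positive proportion of all tuples of shifts

`E_D : y² = x³ - 35 D² x - 98 D³` is the twist of `X_0(49)` by `D`; `T` is ANY finite set of primes `≡ 1 mod 4` (for
instance the empty set) and `N` any number prime to `7`.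

There are an auxiliary prime `r ≡ 1 mod 4 N`, inert in `ℚ(√-7)`, and a bound `B` such that in EVERY set `W` of at
least `δ x` integers of `[0, x]` at least the proportion `c(δ) > 0` of all the `x ^ m` vectors `h_1 < ... < h_m` have
their entries in `W` and satisfy: for EVERY graph `G` with the vertices `1, ..., m` there is `d ∈ {1, r}` such that
for infinitely many `n` the numbers `p_i = n + h_i` are primes, `1` modulo `28 N`, at most `B` primes lie at distance
at most `Y` from `n` (for every `Y`), and for ALL `S, S' ⊆ {1, ..., m}` such that the numbers of the rooted spanning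
forests of the graphs `G[S' ∆ X]`, `X ⊆ S`, are all odd, and ALL `J, U ⊆ T` with `E_M(ℚ)` finite and `Ш(E_M/ℚ)[2] = 0`
for the `M = ∏ (U ∆ V)`, `V ⊆ J`, the 2-part of the conjecture holds for `E_D`, `D = d ∏ U ∏_{S'} p_i`, in this form:

* over ALL number fields `K ⊆ ℚ(√p_i : i ∈ S; √q : q ∈ J)`: the Euler product of `E_D` over `K` is an entire
  function, its order at `s = 1` is the rank of `E_D(K)`, both are `0`, `E_D(K)` is finite, and the 2-primary part of
  `Ш(E_D/K)` is killed by `[K : ℚ]` ((i) and (ii) of the question for `p = 2`);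
* over `ℚ`, for ALL the twists `E_M` which occur in `E_D` over these fields, `M = d ∏ (U ∆ V) ∏_{S' ∆ X} p_i`, `V ⊆ J`,
  `X ⊆ S` (the restriction of scalars of `E_D` from `K` to `ℚ` is isogenous to a product of such `E_M`): (i), (ii) and
  (iii) for `p = 2`, `L(E_M, 1) ≠ 0`, `Ш(E_M/ℚ)[2^∞] = 0` and the predicted order of `Ш` is a unit at two.

The condition on `S`, `S'` holds if every vertex of `S` has at most one neighbour in `S` and `S' ⊆ S`, for instance
for the graph without edges (then the `K` are all the subfields of `ℚ(√p_i : i ∈ S)`, fields generated by the new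
primes), and also for `S = ∅` and `G[S']` with an odd number of rooted spanning forests (fixed fields, new curves).

Proof. The prime tuples are those of `U974/PP` (Maynard–Tao, Ramsey, Paley graphs), the 2-descent is `U974/TW`,
`U974/AW/Fld5`, the passage from the twists to the fields is helper80's `U80/MQ` (with helper120's `U120/MF`), (iii)
over `ℚ` for one twist is the starting theorem `MP_4a9ea6_nt.TwoPartTwistsX49`.
-/

set_option autoImplicit false

open scoped Classical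

open WeierstrassCurve NumberField IsDedekindDomain
open scoped symmDiff

namespace Pool.Agent.Results.MP_e996df_nt.FieldsOfPrimeTuples

open Pool.Agent.TH841.NF.D (Sha)
open Pool.Agent.Results.MP_4a9ea6_nt.TwoPartTwistsX49 (TwoPart)

/-- the coefficient of `x` -/
def A (D : ℕ) : ℤ := -35 * (D : ℤ) ^ 2

/-- the constant coefficient -/
def B (D : ℕ) : ℤ := -98 * (D : ℤ) ^ 3

/-- the curve `y² = x³ - 35 D² x - 98 D³` over `K` -/
def curve (D : ℕ) (K : Type) [Field K] : WeierstrassCurve K :=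
  { a₁ := 0, a₂ := 0, a₃ := 0, a₄ := ((A D : ℤ) : K), a₆ := ((B D : ℤ) : K) }

/-- `E_D(ℚ)` is finite and `Ш(E_D/ℚ)` has no element of order two -/
def TrivialTwo (D : ℕ) : Prop :=
  Finite (curve D ℚ).toAffine.Point ∧ ∀ x : Sha (curve D ℚ), 2 • x = 0 → x = 0

/-- `a_v = q_v + 1 - #E(k_v) = q_v - #{(x, y) ∈ k_v² : y² = x³ + a x + b}` -/
noncomputable def trace {K : Type} [Field K] [NumberField K] (a b : ℤ)
    (v : HeightOneSpectrum (𝓞 K)) : ℤ :=
  ((Ideal.absNorm v.asIdeal : ℕ) : ℤ) -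
    ((Nat.card {x : (𝓞 K ⧸ v.asIdeal) × (𝓞 K ⧸ v.asIdeal) //
      x.2 ^ 2 = x.1 ^ 3 + (a : 𝓞 K ⧸ v.asIdeal) * x.1 + (b : 𝓞 K ⧸ v.asIdeal)} : ℕ) : ℤ)

/-- the Euler factor at `v` of `y² = x³ + a x + b`; it is `1` at the places that divide
`2 (4 a³ + 27 b²)` -/
noncomputable def factor {K : Type} [Field K] [NumberField K] (a b : ℤ) (s : ℂ)
    (v : HeightOneSpectrum (𝓞 K)) : ℂ :=
  if ((2 * (4 * a ^ 3 + 27 * b ^ 2) : ℤ) : 𝓞 K) ∈ v.asIdeal then 1 else
    (1 - ((trace a b v : ℤ) : ℂ) * ((Ideal.absNorm v.asIdeal : ℕ) : ℂ) ^ (-s)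
      + ((Ideal.absNorm v.asIdeal : ℕ) : ℂ) ^ (1 - 2 * s))⁻¹

/-- the rank part of the conjecture for `E_D` over `K`, with order and rank `0`: `E_D(K)` is finite, the
Euler product (without the factors at the places that divide `2 (4 A³ + 27 B²)`) is an entire function `Λ`,
the order of `Λ` at `1` is the rank of `E_D(K)`, and both are `0` -/
def RankZero (D : ℕ) (K : Type) [Field K] [NumberField K] : Prop :=
  Finite (curve D K).toAffine.Point ∧ Module.finrank ℤ (curve D K).toAffine.Point = 0 ∧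
    ∃ Λ : ℂ → ℂ, Differentiable ℂ Λ ∧
      (∀ s : ℂ, (3 : ℝ) / 2 < s.re → HasProd (factor (K := K) (A D) (B D) s) (Λ s)) ∧
      analyticOrderAt Λ 1 = ((Module.finrank ℤ (curve D K).toAffine.Point : ℕ) : ℕ∞) ∧ Λ 1 ≠ 0

/-- the elements of `Ш(E_D/K)` of order a power of two are killed by `[K : ℚ]` -/
def ShaKilled (D : ℕ) (K : Type) [Field K] [NumberField K] : Prop :=
  ∀ (k : ℕ) (x : Sha (curve D K)), 2 ^ k • x = 0 → Module.finrank ℚ K • x = 0

/-- the field generated by the square roots of the elements of `J` -/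
noncomputable def Roots (J : Finset ℕ) : IntermediateField ℚ ℂ :=
  IntermediateField.adjoin ℚ {z : ℂ | ∃ q ∈ J, z ^ 2 = (q : ℂ)}

/-- the determinant of the matrix `1 + Laplacian` of the subgraph of `G` induced on `S` is odd -/
def OddForests {m : ℕ} (G : SimpleGraph (Fin m)) (S : Finset (Fin m)) : Prop :=
  ((1 : Matrix (S : Set (Fin m)) (S : Set (Fin m)) (ZMod 2)) +
    (G.induce (S : Set (Fin m))).lapMatrix (ZMod 2)).det ≠ 0

/-- the determinants are odd for all the sets `S' ∆ X`, `X ⊆ S` -/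
def AllOdd {m : ℕ} (G : SimpleGraph (Fin m)) (S S' : Finset (Fin m)) : Prop :=
  ∀ X, X ⊆ S → OddForests G (S' ∆ X)

/-- every vertex of `S` has at most one neighbour in `S` -/
def Matching {m : ℕ} (G : SimpleGraph (Fin m)) (S : Finset (Fin m)) : Prop :=
  ∀ i ∈ S, ∀ j ∈ S, ∀ k ∈ S, G.Adj i j → G.Adj i k → j = k

/-- the sets `U ⊆ T` with `E_M(ℚ)` finite and `Ш(E_M/ℚ)[2] = 0` for all `M = ∏ (U ∆ V)`, `V ⊆ J` -/
def Base (T J : Finset ℕ) : Set (Finset ℕ) :=
  {U | U ⊆ T ∧ ∀ V, V ⊆ J → TrivialTwo (∏ q ∈ U ∆ V, q)}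

/-- the property of the tuple `h`: for every graph `G` there is `d ∈ {1, r}` such that for infinitely many `n` the
numbers `n + h i` are primes, `1` modulo `28 N`, with at most `B` primes at distance at most `Y` from `n` (for every
`Y`), and the conclusions over `ℚ` and over the fields hold -/
def AllFields (T : Finset ℕ) (N r B : ℕ) {m : ℕ} (h : Fin m → ℕ) : Prop :=
  ∀ G : SimpleGraph (Fin m), ∃ d : ℕ, (d = 1 ∨ d = r) ∧ ∀ Y : ℕ,
    {n : ℕ | (∀ i, (n + h i).Prime ∧ n + h i ≡ 1 [MOD 28 * N]) ∧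
      {p : ℕ | p.Prime ∧ |(p : ℤ) - n| ≤ Y}.ncard ≤ B ∧
      ∀ J : Finset ℕ, J ⊆ T → ∀ U ∈ Base T J, ∀ S S' : Finset (Fin m), AllOdd G S S' →
        (∀ V, V ⊆ J → ∀ X, X ⊆ S → TwoPart ((∏ q ∈ U ∆ V, q) * (d * ∏ i ∈ S' ∆ X, (n + h i)))) ∧
        ∀ K : IntermediateField ℚ ℂ, K ≤ Roots (J ∪ S.image (fun i => n + h i)) → ∃ _ : NumberField K,
          RankZero ((∏ q ∈ U, q) * (d * ∏ i ∈ S', (n + h i))) K ∧
          ShaKilled ((∏ q ∈ U, q) * (d * ∏ i ∈ S', (n + h i))) K}.Infinite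

section proof

open Pool.Agent.U974.TW
open Pool.Agent.U120.MF (TT tt_gd)

theorem rankZero_of {D : ℕ} {K : Type} [Field K] [NumberField K]
    (hfin : Finite (curve D K).toAffine.Point) {G : ℂ → ℂ} (g1 : Differentiable ℂ G)
    (g2 : ∀ s : ℂ, (3 : ℝ) / 2 < s.re → HasProd (factor (K := K) (A D) (B D) s) (G s))
    (g3 : G 1 ≠ 0) : RankZero D K := by
  have hrk : Module.finrank ℤ (curve D K).toAffine.Point = 0 := Pool.Agent.U80.MQ.finrank_fin
  refine ⟨hfin, hrk, G, g1, g2, ?_, g3⟩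
  rw [hrk]
  exact (g1.analyticAt 1).analyticOrderAt_eq_zero.2 g3

theorem numberField {J : Finset ℕ} (K : IntermediateField ℚ ℂ) (hK : K ≤ Roots J) : NumberField K := by
  obtain ⟨n, _, _, _, _, _, _, h⟩ := Pool.Agent.U80.MQ.exists_gens K hK
  exact { to_charZero := inferInstance
          to_finiteDimensional := Module.finite_of_finrank_pos (by rw [h]; positivity) }

theorem adm_prod {Q : Finset ℕ} (hQ : ∀ q ∈ Q, q.Prime ∧ q % 4 = 1) :
    Pool.Agent.Results.MP_4a9ea6_nt.TwoPartTwistsX49.Adm (∏ q ∈ Q, q) := by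
  refine ⟨?_, fun p hp => ?_⟩
  · refine Finset.squarefree_prod_of_pairwise_isCoprime (fun p hp q hq hpq => ?_) fun p hp =>
      (hQ p hp).1.squarefree
    show IsRelPrime p q
    rw [← Nat.coprime_iff_isRelPrime]
    exact (Nat.coprime_primes (hQ p hp).1 (hQ q hq).1).mpr hpq
  · have hpp := Nat.prime_of_mem_primeFactors hp
    obtain ⟨q, hq, hpq⟩ := (hpp.prime.dvd_finsetProd_iff _).1 (Nat.dvd_of_mem_primeFactors hp)
    rw [(Nat.prime_dvd_prime_iff_eq hpp (hQ q hq).1).1 hpq]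
    exact (hQ q hq).2

/-- the 2-part over `ℚ` -/
theorem twoPart_of {M : ℕ} (hA : Pool.Agent.Results.MP_4a9ea6_nt.TwoPartTwistsX49.Adm M) (h : TT M) :
    TwoPart M := by
  obtain ⟨-, -, -, h4, h5, -⟩ := Pool.Agent.Results.MP_4a9ea6_nt.TwoPartTwistsX49.result.1 M hA
  have hm : M % 4 = 1 := Pool.Agent.Results.MP_4a9ea6_nt.TwoPartTwistsX49.adm_mod hA
  exact h5.2 (h4.1 ((Pool.Agent.R413.SQ.Cor.same hm).1 h))

theorem odd_iff {m : ℕ} (G : SimpleGraph (Fin m)) (S : Finset (Fin m)) : Ker G 1 S ↔ OddForests G S :=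
  ker_iff G S

theorem allOdd_of {m : ℕ} {G : SimpleGraph (Fin m)} {S S' : Finset (Fin m)} (hS : Matching G S)
    (hS' : S' ⊆ S) : AllOdd G S S' := by
  intro X hX
  rw [← odd_iff]
  refine Match.ker (Match.mono (S := S) hS fun i hi => ?_)
  rcases Finset.mem_symmDiff.1 hi with h | h
  · exact hS' h.1
  · exact hX h.1

end proof

/-- **The 2-part of the conjecture over the fields of prime tuples.** -/
theorem result (m N : ℕ) (hN : 0 < N) (h7 : N.Coprime 7) (T : Finset ℕ)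
    (hT : ∀ q ∈ T, q.Prime ∧ q % 4 = 1) :
    TrivialTwo 1 ∧
    (∀ (G : SimpleGraph (Fin m)) (S S' : Finset (Fin m)), Matching G S → S' ⊆ S → AllOdd G S S') ∧
    ∃ r B : ℕ, r.Prime ∧ r ≡ 1 [MOD 4 * N] ∧ r % 7 = 3 ∧ ∀ δ : ℝ, 0 < δ → ∃ c : ℝ, 0 < c ∧
      ∃ x₀ : ℕ, ∀ x : ℕ, x₀ ≤ x → ∀ W : Finset ℕ, (∀ w ∈ W, w ≤ x) → δ * x ≤ W.card →
        c * (x : ℝ) ^ m ≤ ({h : Fin m → ℕ | StrictMono h ∧ (∀ i, h i ∈ W) ∧
          AllFields T N r B h}.ncard : ℝ) := by
  refine ⟨?_, fun G S S' => allOdd_of, ?_⟩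
  · have h1 := (Pool.Agent.U120.MF.tt_gd (U := (∅ : Finset ℕ))
      (fun p hp => absurd hp (Finset.notMem_empty _))).2 (by
      intro x _ p hp
      exact absurd hp (Finset.notMem_empty _))
    rw [Finset.prod_empty] at h1
    exact h1
  obtain ⟨r, hr1, hr2, hr3, B, hB⟩ := Pool.Agent.U974.TW.relP m N hN h7 T hT
  refine ⟨r, B, hr1, hr2, hr3, fun δ hδ => ?_⟩
  obtain ⟨c, hc, x₀, hx⟩ := hB δ hδ
  refine ⟨c, hc, x₀, fun x hxx W hW hWc => (hx x hxx W hW hWc).trans ?_⟩
  have hfin : {h : Fin m → ℕ | StrictMono h ∧ (∀ i, h i ∈ W) ∧ AllFields T N r B h}.Finite := by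
    refine (Fintype.piFinset (fun _ : Fin m => W)).finite_toSet.subset ?_
    rintro h ⟨-, h2, -⟩
    rw [Finset.mem_coe, Fintype.mem_piFinset]
    exact h2
  have hsub : {h : Fin m → ℕ | StrictMono h ∧ (∀ i, h i ∈ W) ∧ Pool.Agent.U974.TW.AllCfg N B T r h} ⊆
      {h : Fin m → ℕ | StrictMono h ∧ (∀ i, h i ∈ W) ∧ AllFields T N r B h} := by
    rintro h ⟨g1, g2, g3⟩
    refine ⟨g1, g2, fun G => ?_⟩
    obtain ⟨c, hc⟩ := g3 G
    obtain ⟨β, hβ1, hβ2⟩ := Pool.Agent.U974.TW.exists_flip c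
    refine ⟨if β then r else 1, ?_, fun Y => (hc Y).mono ?_⟩
    · cases β
      · exact Or.inl rfl
      · exact Or.inr rfl
    · rintro n ⟨k1, k2, k3⟩
      refine ⟨fun i => ⟨k1.prime i, k2 i⟩, k3, ?_⟩
      rintro J hJ U ⟨hU, hUJ⟩ S S' hS
      refine ⟨fun V hV X hX => ?_, fun K hK => ?_⟩
      · have hUV := Pool.Agent.U974.TW.symm_subT hU (hV.trans hJ)
        refine twoPart_of ?_ ?_
        · rw [← k1.prod hUV β (S' ∆ X)]
          exact adm_prod (k1.p4 hUV β (S' ∆ X))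
        · rw [k1.tt hUV β (S' ∆ X), hβ1, odd_iff]
          exact ⟨hUJ V hV, hS X hX⟩
      · have hnf : NumberField K := numberField K hK
        obtain ⟨h1, ⟨F, f1, f2, f3⟩, h3⟩ :=
          Pool.Agent.U974.AW.field3 k1 hU hJ hUJ β S S' (fun X hX => by
            rw [hβ1, odd_iff]
            exact hS X hX) K hK _ rfl
        exact ⟨hnf, rankZero_of h1 f1 (fun s hs => f2 s hs) f3, fun k x hx => h3 k x hx⟩
  exact_mod_cast Set.ncard_le_ncard hsub hfin

end Pool.Agent.Results.MP_e996df_nt.FieldsOfPrimeTuples
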