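import Pool.Agent.Results.MP_e996df_nt.MajorityThreePart
import Pool.Agent.U687.KT.Crit

/-!
# The `3`-part of the formula of Birch and Swinnerton-Dyer over `ℚ(√-3)` for the prime twists of EVERY
# cubic twist of `y² + y = x³`: exact joint densities

`K` is the field of the third roots of unity, `E_D : y² + D y = x³`, and `D` is a cube-free element of
`𝓞 K` that is congruent to a third root of unity modulo `3`: `D = ω ^ i ∏ π_k ^ e_k`, `k < n`, with
different primes `π_k = 1` modulo `3` and `e_k = 1, 2`.  Every cubic twist of `E : y² + y = x³` by an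
element prime to `3` is isomorphic to `E_D` for exactly one such `D`.  NOTHING is assumed on `D`: the rank
of `E_D`, its Tate-Shafarevich group and the order of vanishing of `L(E_D / K, s)` are arbitrary, and
the class of norms for which the formula is not known for `D` itself is allowed.

Let `D_s` be the members of a finite set of pairwise coprime `D` of this form, `f_s = 1, 2`.  Every
prime ideal of `K` prime to `3` has exactly one generator `q = 1` modulo `3`; its norm is `1 + 3 a`
modulo `9` with `a = 0, 1, 2`.  We fix `a` (such that no `D_s q ^ f_s` is both `1` modulo `3` and of norm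
`1` modulo `9`), and any subset `V` of the index set.

Theorem.  Among these primes `q`, ordered by the norm, the proportion of those such that

* for `s ∈ V`, with `D' = D_s q ^ f_s`: `E_{D'}(K)` is finite, `Ш(E_{D'} / K)[3^∞] = 0`,
  `L(E_{D'} / K, s)` is entire and not zero at `1`, and the `3`-part of the formula holds: the
  quotient `ρ` of `L(E_{D'} / K, 1)` and of the right-hand side without the order of `Ш` is a unit at
  all the valuations of `ℂ` above `3`, and
* for `s ∉ V`: `E_{D'}(K)` is infinite or `Ш(E_{D'} / K)[3^∞] ≠ 0`, and `ρ` is integral and not a unit at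
  the valuations above `3`,

tends to `∏_{s ∈ V} c_s ∏_{s ∉ V} (1 - c_s)`: the events are independent.  Here `c_s` is the proportion of
the vectors `x` of length `n_s` over the field with three elements such that the graph with the
vertices `ω`, `π_k` and one new vertex, joined to `π_k` by the symbol `x_k` and to `ω` by `a`, is
connected (in the sense of the weighted Laplacian over the field with three elements).  If
`∑ e_k η_k + f a ≠ 0`, `(ω / π_k)_3 = ω ^ η_k` (for each `D` this is the case for two of the three classes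
`a`), then

`(2 / 3) ^ n ≤ c ≤ 1 - (1 / 3) (2 / 3) ^ (n - 1)` (the upper bound for `n > 0`).

So the `3`-part of the formula holds with a unit for a positive proportion of the prime twists of EVERY
`E_D`, and it holds in the other form for a positive proportion of the prime twists of every `E_D`.

Proof.  The criterion for one `D` and the law for `ρ` are the starting hand-in
`MP_e996df_nt.MajorityThreePart`.  By cubic reciprocity the new prime joins the graph of `D` by its own
residue symbols, which enter the reduced Laplacian as a free perturbation of the diagonal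
(`Pool.Agent.U687.KT.Mat`).  The joint law of the symbols `(π_{s,k} / q)_3` and `(ω / q)_3` follows from
the theorem of Chebotarev and from the independence of the cube roots of the `π_{s,k}` and of `ω` over
`K` (`Pool.Agent.Q283.TC`).
-/

set_option autoImplicit false

namespace Pool.Agent.Results.MP_e996df_nt.PrimeTwistsOfEveryTwist

open NumberField Filter Topology
open Pool.Agent.Results.MP_e996df_nt.MajorityThreePart (curve InFamily Exceptional FiniteAndTrivial Law
  IsFactorization IsConnected Criterion)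
open scoped Classical

variable {K : Type} [Field K] [NumberField K]

/-- `L(E_D / K, s)` is entire, `ρ` is a unit above `3`, `E_D(K)` is finite and `Ш(E_D / K)[3^∞] = 0`
(then `L(E_D / K, 1) ≠ 0`, see `Law`). -/
def UnitCase (D : 𝓞 K) : Prop := Law D ∧ FiniteAndTrivial D

/-- `L(E_D / K, s)` is entire, `ρ` is integral and not a unit above `3`, and `E_D(K)` is infinite or
`Ш(E_D / K)[3^∞] ≠ 0`. -/
def OtherCase (D : 𝓞 K) : Prop := Law D ∧ ¬ FiniteAndTrivial D

/-- The symbols of the graph with the new vertex `0`, joined to the old vertices by `x`. -/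
def addVertex {n : ℕ} (χ : Fin n → Fin n → ZMod 3) (x : Fin n → ZMod 3) :
    Fin (n + 1) → Fin (n + 1) → ZMod 3 :=
  Fin.cons (Fin.cons 0 x) fun j => Fin.cons (x j) (χ j)

/-- The proportion of the vectors `x` such that the graph with the new vertex of weight `f`, joined to
the old vertices by `x` and to `ω` by `a`, is connected. -/
noncomputable def c {n : ℕ} (e : Fin n → ZMod 3) (i : ZMod 3) (χ : Fin n → Fin n → ZMod 3)
    (η : Fin n → ZMod 3) (f a : ZMod 3) : ℝ :=
  (Nat.card {x : Fin n → ZMod 3 // IsConnected (Fin.cons f e : Fin (n + 1) → ZMod 3) i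
    (addVertex χ x) (Fin.cons a η : Fin (n + 1) → ZMod 3)} : ℝ) / 3 ^ n

/-- The primes `q = 1` modulo `3` of norm at most `X`, the norm being `1 + 3 a` modulo `9`. -/
def Primes (K : Type) [Field K] [NumberField K] (a : ZMod 3) (X : ℕ) : Set (𝓞 K) :=
  {q | Prime q ∧ (3 : 𝓞 K) ∣ q - 1 ∧ Algebra.norm ℤ q ≤ X ∧
    Algebra.norm ℤ q % 9 = 1 + 3 * (a.val : ℤ)}

section proof

open Pool.Agent.Y692.QS (Ei w nr)
open Pool.Agent.Y715.T.Rec (cs)
open Pool.Agent.Y715.T.RecG (Pq)
open Pool.Agent.Y696.CTK (pq_symm)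
open Pool.Agent.N883.FF (IsFactB fact_exB fam_data famK_iff FamK)
open Q283.TC (NT)
open Pool.Agent.U687.KT

theorem dvd_of_fact {ω D : 𝓞 K} {n : ℕ} {π : Fin n → 𝓞 K} {e : Fin n → ZMod 3} {i : ZMod 3}
    {χ : Fin n → Fin n → ZMod 3} {η : Fin n → ZMod 3} (h : IsFactorization ω D n π e i χ η)
    (k : Fin n) : π k ∣ D := by
  rw [h.2.1]
  refine Dvd.dvd.mul_left ?_ _
  refine (dvd_pow_self _ ?_).trans (Finset.dvd_prod_of_mem _ (Finset.mem_univ k))
  rw [Ne, ZMod.val_eq_zero]
  exact (h.1 k).2.2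

theorem sets_eq (j : Ei ≃+* 𝓞 K) (hj : ∀ z : Ei, Algebra.norm ℤ (j z) = nr z) (a : ZMod 3)
    (R : 𝓞 K → Prop) (X : ℕ) :
    {q : 𝓞 K | q ∈ Primes K a X ∧ R q}.ncard = NT (fun z => cs z w = a ∧ R (j z)) X := by
  unfold NT
  rw [← Set.ncard_image_of_injective _ j.injective]
  congr 1
  ext q
  obtain ⟨z, rfl⟩ := j.surjective q
  have h1 : j z ∈ j '' {π : Ei | Pq π ∧ nr π ≤ X ∧ cs π w = a ∧ R (j π)} ↔
      Pq z ∧ nr z ≤ X ∧ cs z w = a ∧ R (j z) := by
    constructor
    · rintro ⟨z', h2, h3⟩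
      rw [j.injective h3] at h2
      exact h2
    · intro h2
      exact ⟨z, h2, rfl⟩
  have h2 : (Prime (j z) ∧ (3 : 𝓞 K) ∣ j z - 1) ↔ Pq z := by
    constructor
    · rintro ⟨h3, h4⟩
      have := pq_symm j h3 h4
      rwa [RingEquiv.symm_apply_apply] at this
    · intro h3
      refine ⟨(MulEquiv.prime_iff (j : Ei ≃* 𝓞 K)).2 h3.prime, ?_⟩
      have h4 : j z - 1 = j (z - 1) := by rw [map_sub, map_one]
      rw [h4, ← map_ofNat j 3]
      exact map_dvd j h3.three
  refine Iff.trans ?_ h1.symm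
  show ((Prime (j z) ∧ (3 : 𝓞 K) ∣ j z - 1 ∧ Algebra.norm ℤ (j z) ≤ X ∧
    Algebra.norm ℤ (j z) % 9 = 1 + 3 * (a.val : ℤ)) ∧ R (j z)) ↔ _
  rw [hj]
  constructor
  · rintro ⟨⟨h3, h4, h5, h6⟩, h7⟩
    have h8 := h2.1 ⟨h3, h4⟩
    exact ⟨h8, h5, (norm_class h8 a).1 h6, h7⟩
  · rintro ⟨h3, h4, h5, h6⟩
    obtain ⟨h7, h8⟩ := h2.2 h3
    exact ⟨⟨h7, h8, h4, (norm_class h3 a).2 h5⟩, h6⟩

theorem card_compl {α : Type} [Finite α] (P : α → Prop) :
    (Nat.card {x // ¬ P x} : ℝ) = Nat.card α - Nat.card {x // P x} := by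
  have h := Nat.card_congr (Equiv.sumCompl P)
  rw [Nat.card_sum] at h
  rw [← h]
  push_cast
  ring

end proof

open Pool.Agent.Y692.QS in
open Pool.Agent.U687.KT in
/-- **The `3`-part of the formula for the prime twists of every cubic twist over `ℚ(√-3)`.** -/
theorem result (K : Type) [Field K] [NumberField K] [IsCyclotomicExtension {3} ℚ K] :
    (∀ D : 𝓞 K, InFamily D → ∃ (ω : 𝓞 K) (n : ℕ) (π : Fin n → 𝓞 K) (e : Fin n → ZMod 3) (i : ZMod 3)
      (χ : Fin n → Fin n → ZMod 3) (η : Fin n → ZMod 3),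
      ω ^ 2 + ω + 1 = 0 ∧ IsFactorization ω D n π e i χ η) ∧
    (∀ (ω : 𝓞 K) (ι : Type) [Fintype ι] (D : ι → 𝓞 K) (n : ι → ℕ) (π : ∀ s, Fin (n s) → 𝓞 K)
      (e : ∀ s, Fin (n s) → ZMod 3) (i : ι → ZMod 3) (χ : ∀ s, Fin (n s) → Fin (n s) → ZMod 3)
      (η : ∀ s, Fin (n s) → ZMod 3) (f : ι → ZMod 3) (a : ZMod 3) (V : Finset ι),
      ω ^ 2 + ω + 1 = 0 →
      (∀ s, IsFactorization ω (D s) (n s) (π s) (e s) (i s) (χ s) (η s)) →
      (∀ s s', s ≠ s' → IsCoprime (D s) (D s')) → (∀ s, f s ≠ 0) →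
      (∀ s, i s = 0 → ∑ k, e s k * η s k + f s * a ≠ 0) →
      Tendsto (fun X : ℕ =>
        ({q : 𝓞 K | q ∈ Primes K a X ∧ ∀ s, (s ∈ V → UnitCase (D s * q ^ (f s).val)) ∧
          (s ∉ V → OtherCase (D s * q ^ (f s).val))}.ncard : ℝ) / ((Primes K a X).ncard : ℝ))
        atTop (𝓝 ((∏ s ∈ V, c (e s) (i s) (χ s) (η s) (f s) a) *
          ∏ s ∈ Vᶜ, (1 - c (e s) (i s) (χ s) (η s) (f s) a)))) ∧
    (∀ (ω D : 𝓞 K) (n : ℕ) (π : Fin n → 𝓞 K) (e : Fin n → ZMod 3) (i : ZMod 3)
      (χ : Fin n → Fin n → ZMod 3) (η : Fin n → ZMod 3) (f a : ZMod 3), ω ^ 2 + ω + 1 = 0 →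
      IsFactorization ω D n π e i χ η → f ≠ 0 → ∑ k, e k * η k + f * a ≠ 0 →
      (2 / 3 : ℝ) ^ n ≤ c e i χ η f a ∧
      (0 < n → c e i χ η f a ≤ 1 - 1 / 3 * (2 / 3 : ℝ) ^ (n - 1))) := by
  obtain ⟨⟨j, hj⟩, -⟩ := Pool.Agent.Y455.CTK.jex K
  refine ⟨?_, ?_, ?_⟩
  · intro D hD
    obtain ⟨z, rfl⟩ := j.surjective D
    obtain ⟨i, n, π, e, hdt, rfl⟩ := Pool.Agent.N883.FF.fam_data
      ((Pool.Agent.N883.FF.famK_iff j _).1 hD)
    obtain ⟨ω, χ, η, h1, h2⟩ := Pool.Agent.N883.FF.fact_exB j hj hdt i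
    exact ⟨ω, _, _, e, i, χ, η, h1, h2⟩
  · intro ω ι _ D n π e i χ η f a V hω hfac hco hf hx
    obtain ⟨j, hj, rfl⟩ := exists_j j hj hω
    have hg : ∀ s k, Pool.Agent.Y715.T.RecG.Pq (j.symm (π s k)) := fun s k =>
      Pool.Agent.Y696.CTK.pq_symm j ((hfac s).1 k).1 ((hfac s).1 k).2.1
    have hinj : Function.Injective (fun x : (Σ s, Fin (n s)) => j.symm (π x.1 x.2)) := by
      rintro ⟨s, k⟩ ⟨s', k'⟩ hh
      have h1 : π s k = π s' k' := j.symm.injective hh
      by_cases hs : s = s'
      · subst hs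
        by_cases hk : k = k'
        · rw [hk]
        · exact absurd (by rw [h1]) (((hfac s).2.2.1 k k' hk).1)
      · exfalso
        have h2 := dvd_of_fact (hfac s) k
        have h3 := dvd_of_fact (hfac s') k'
        rw [← h1] at h3
        exact ((hfac s).1 k).1.not_isUnit ((hco s s' hs).isUnit_of_dvd' h2 h3)
    have main := law (fun s k => j.symm (π s k)) hg hinj a
      (fun s x => s ∈ V ↔ CK (Fin.cons (f s) (e s) : Fin (n s + 1) → ZMod 3) (i s) (ex1 (χ s) x)
        (Fin.cons a (η s) : Fin (n s + 1) → ZMod 3))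
      (fun z => ∀ s, (s ∈ V → UnitCase (D s * (j z) ^ (f s).val)) ∧
          (s ∉ V → OtherCase (D s * (j z) ^ (f s).val))) (by
        intro z hz hne ha
        refine forall_congr' fun s => ?_
        obtain ⟨h1, h2, h3⟩ := twist j hj (hfac s) (hf s) (hx s) hz (hne s) ha
        have h4 : Law (D s * (j z) ^ (f s).val) :=
          (((Pool.Agent.Results.MP_e996df_nt.MajorityThreePart.result K).2.1 _ h1 h2).1)
        have h5 : FiniteAndTrivial (D s * (j z) ^ (f s).val) ↔
          CK (Fin.cons (f s) (e s) : Fin (n s + 1) → ZMod 3) (i s)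
            (ex1 (χ s) (fun k => Pool.Agent.Y715.T.Rec.cs z (j.symm (π s k))))
            (Fin.cons a (η s) : Fin (n s + 1) → ZMod 3) := h3
        rw [← h5]
        constructor
        · rintro ⟨h6, h7⟩
          exact ⟨fun h => (h6 h).2, fun h => by_contra fun h8 => (h7 h8).2 h⟩
        · intro h6
          exact ⟨fun h => ⟨h4, h6.1 h⟩, fun h => ⟨h4, fun h8 => h (h6.2 h8)⟩⟩)
    have hlim : (∏ s, (Nat.card {x : Fin (n s) → ZMod 3 //
        (s ∈ V ↔ CK (Fin.cons (f s) (e s) : Fin (n s + 1) → ZMod 3) (i s) (ex1 (χ s) x)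
          (Fin.cons a (η s) : Fin (n s + 1) → ZMod 3))} : ℝ) / 3 ^ n s) =
        (∏ s ∈ V, c (e s) (i s) (χ s) (η s) (f s) a) *
          ∏ s ∈ Vᶜ, (1 - c (e s) (i s) (χ s) (η s) (f s) a) := by
      rw [← Finset.prod_mul_prod_compl V]
      congr 1
      · refine Finset.prod_congr rfl fun s hs => ?_
        have e1 : Nat.card {x : Fin (n s) → ZMod 3 //
            (s ∈ V ↔ CK (Fin.cons (f s) (e s) : Fin (n s + 1) → ZMod 3) (i s) (ex1 (χ s) x)
              (Fin.cons a (η s) : Fin (n s + 1) → ZMod 3))} =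
            Nat.card {x : Fin (n s) → ZMod 3 //
              IsConnected (Fin.cons (f s) (e s) : Fin (n s + 1) → ZMod 3) (i s)
                (addVertex (χ s) x) (Fin.cons a (η s) : Fin (n s + 1) → ZMod 3)} :=
          Nat.card_congr (Equiv.subtypeEquivRight fun x =>
            ⟨fun h => h.1 hs, fun h => ⟨fun _ => h, fun _ => hs⟩⟩)
        rw [e1]
        rfl
      · refine Finset.prod_congr rfl fun s hs => ?_
        have hs' : s ∉ V := Finset.mem_compl.1 hs
        have e1 : Nat.card {x : Fin (n s) → ZMod 3 //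
            (s ∈ V ↔ CK (Fin.cons (f s) (e s) : Fin (n s + 1) → ZMod 3) (i s) (ex1 (χ s) x)
              (Fin.cons a (η s) : Fin (n s + 1) → ZMod 3))} =
            Nat.card {x : Fin (n s) → ZMod 3 //
              ¬ IsConnected (Fin.cons (f s) (e s) : Fin (n s + 1) → ZMod 3) (i s)
                (addVertex (χ s) x) (Fin.cons a (η s) : Fin (n s + 1) → ZMod 3)} :=
          Nat.card_congr (Equiv.subtypeEquivRight fun x =>
            ⟨fun h h' => hs' (h.2 h'), fun h => ⟨fun h' => absurd h' hs', fun h' => absurd h' h⟩⟩)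
        have e2 : (Nat.card (Fin (n s) → ZMod 3) : ℝ) = 3 ^ n s := by
          rw [Nat.card_fun, Nat.card_eq_fintype_card, Nat.card_eq_fintype_card, ZMod.card,
            Fintype.card_fin]
          push_cast
          rfl
        rw [e1, card_compl, e2, sub_div, div_self (by positivity)]
        rfl
    rw [hlim] at main
    refine main.congr fun X => ?_
    have e1 := sets_eq j hj a (fun q => ∀ s, (s ∈ V → UnitCase (D s * q ^ (f s).val)) ∧
          (s ∉ V → OtherCase (D s * q ^ (f s).val))) X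
    have e0 := sets_eq j hj a (fun _ => True) X
    simp only [and_true] at e0
    have e0' : (Primes K a X).ncard = Q283.TC.NT (fun z => Pool.Agent.Y715.T.Rec.cs z w = a) X := e0
    rw [e1, e0']
  · intro ω D n π e i χ η f a hω hfac hf hd
    obtain ⟨j, hj, rfl⟩ := exists_j j hj hω
    obtain ⟨hdt, hD, hχ, hη⟩ := fact_data j hj hfac
    have hs : ∀ k l, k ≠ l → χ k l = χ l k := by
      intro k l hkl
      rw [hχ k l hkl, hχ l k hkl.symm]
      exact Pool.Agent.Y350.CT.rec _ _ (hdt.pq l) (hdt.pq k) (hdt.nd l k hkl.symm)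
    refine ⟨?_, fun hn => ?_⟩
    · have h1 := card_ck_ge (i := i) hs hf hd
      unfold c
      rw [div_pow]
      refine div_le_div_of_nonneg_right ?_ (by positivity)
      exact_mod_cast h1
    · obtain ⟨m, rfl⟩ := Nat.exists_eq_succ_of_ne_zero hn.ne'
      have hdd : (∑ k, e k * η k + f * a) * (∑ k, e k * η k + f * a) = 1 := by
        have : ∀ f : ZMod 3, f ≠ 0 → f * f = 1 := by decide
        exact this _ hd
      have h1 := card_ck (i := i) hs hf hdd
      have h2 := card_sing (BM e i χ η (∑ k, e k * η k + f * a))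
      have h3 := card_compl (fun y : Fin (m + 1) → ZMod 3 =>
        (BM e i χ η (∑ k, e k * η k + f * a) + Matrix.diagonal y).det ≠ 0)
      have e2 : (Nat.card (Fin (m + 1) → ZMod 3) : ℝ) = 3 ^ (m + 1) := by
        rw [Nat.card_fun, Nat.card_eq_fintype_card, Nat.card_eq_fintype_card, ZMod.card,
          Fintype.card_fin]
        push_cast
        rfl
      rw [e2, ← h1] at h3
      have h4 : ((2 : ℝ)) ^ m ≤ 3 ^ (m + 1) - Nat.card {x : Fin (m + 1) → ZMod 3 //
          CK (Fin.cons f e : Fin (m + 1 + 1) → ZMod 3) i (ex1 χ x)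
            (Fin.cons a η : Fin (m + 1 + 1) → ZMod 3)} := by
        rw [← h3]
        exact_mod_cast h2
      have h5 : c e i χ η f a = (Nat.card {x : Fin (m + 1) → ZMod 3 //
          CK (Fin.cons f e : Fin (m + 1 + 1) → ZMod 3) i (ex1 χ x)
            (Fin.cons a η : Fin (m + 1 + 1) → ZMod 3)} : ℝ) / 3 ^ (m + 1) := rfl
      rw [h5, div_le_iff₀ (by positivity)]
      have h6 : (1 - 1 / 3 * (2 / 3 : ℝ) ^ (m + 1 - 1)) * 3 ^ (m + 1) = 3 ^ (m + 1) - 2 ^ m := by
        rw [Nat.add_sub_cancel, div_pow, pow_succ]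
        field_simp
      show _ ≤ (1 - 1 / 3 * (2 / 3 : ℝ) ^ (m + 1 - 1)) * 3 ^ (m + 1)
      rw [h6]
      linarith

end Pool.Agent.Results.MP_e996df_nt.PrimeTwistsOfEveryTwist
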