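import Pool.Agent.Results.MP_9ab903_nt.ThreePartCubicTwists
import Pool.Agent.U693.X49.EisK

/-!
# The 3-part of the conjecture over `ℚ(√-3)` for `y² + D y = x³`, `D` a product of primes from ARBITRARY
# sets of primes

`K` is the field of third roots of unity, `E_D : y² + D y = x³`. The class: `D` in `𝓞 K` squarefree,
`≡ 1 mod 3`, of norm not `≡ 1 mod 9`. `Unit3 D` says: `D` is in the class, `E_D(K)` is finite,
`Ш(E_D/K)[3^∞] = 0`, and the law `Law D` of the starting file `MP_9ab903_nt/ThreePartCubicTwists` holds: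
`L(E_D/K, s)` is entire, not zero at `s = 1` (as `E_D(K)` is finite and `Ш[3^∞] = 0`), and the quotient of
`L(E_D/K, 1)` and of the right-hand side of the formula of Birch and Swinnerton-Dyer without the order of
`Ш` is a unit at all the valuations above `3`.

Let `D` be in the class with `E_D(K)` finite and `Ш(E_D/K)[3^∞] = 0`; for instance `D` any prime `≡ 1 mod 3`
of norm not `≡ 1 mod 9`. `PrimaryPrime q`: `q` is a prime element `≡ 1 mod 3`.

* FINITE SETS: let `3 ∣ k` and `S` ANY finite set of primary primes modulo which `D` is not a cube, with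
  at least `N = 3 ^ (3 k + ω(D) + 1)` elements. Then `Unit3 (D ∏ A)` holds for at least
  `(|S| choose k) / (N choose k)` of the `k`-subsets `A` of `S`: a positive proportion which does not
  depend on `S`.
* INFINITE SETS: let `S` be ANY infinite set of primary primes. There is an infinite `T ⊆ S` such that
  `Unit3 (D ∏ A)` holds for ALL finite subsets `A` of `T` with a number of elements divisible by `3`, if and
  only if `D` is not a cube modulo infinitely many primes of `S`. The same equivalence is true if one only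
  asks that `D ∏ A` is in the class, `E_{D ∏ A}(K)` is finite and `Ш(E_{D ∏ A}/K)[3^∞] = 0`.

Proof: the criterion for one `D` (the Laplacian over `𝔽₃` of the cubic residue symbols of the primes of `D`
has only the constants in its kernel) is from the starting files. New: extension of such a Laplacian by a
homogeneous set of primes with a number of elements divisible by `3`, with the theorem of Ramsey for three
colours (`Pool/Agent/U693/X49`: `Gen`, `Multi`, `Eis`, `EisK`).
-/

set_option autoImplicit false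

open scoped Classical
open NumberField

namespace Pool.Agent.Results.MP_e996df_nt.ThreePartArbitraryPrimeSets

open Pool.Agent.Results.MP_9ab903_nt.ThreePartCubicTwists (InClass FiniteAndTrivial Law)

variable {K : Type} [Field K] [NumberField K]

/-- prime elements `≡ 1 mod 3`; every prime element prime to `3` has exactly one such associate -/
def PrimaryPrime (q : 𝓞 K) : Prop := Prime q ∧ (3 : 𝓞 K) ∣ q - 1

/-- `a` is a cube modulo `q` -/
def CubeMod (q a : 𝓞 K) : Prop := ∃ b : 𝓞 K, q ∣ a - b ^ 3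

/-- the number of the primary primes dividing `D` -/
noncomputable def omega (D : 𝓞 K) : ℕ := {q : 𝓞 K | PrimaryPrime q ∧ q ∣ D}.ncard

/-- `D` is in the class, `E_D(K)` is finite, `Ш(E_D/K)[3^∞] = 0`, and the law holds (so that
`L(E_D/K, 1) ≠ 0` and the predicted order of `Ш` is a unit above `3`) -/
def Unit3 (D : 𝓞 K) : Prop := InClass D ∧ FiniteAndTrivial D ∧ Law D

theorem unit_iff [IsCyclotomicExtension {3} ℚ K] (D : 𝓞 K) :
    Unit3 D ↔ InClass D ∧ FiniteAndTrivial D :=
  ⟨fun h => ⟨h.1, h.2.1⟩, fun h => ⟨h.1, h.2,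
    ((Pool.Agent.Results.MP_9ab903_nt.ThreePartCubicTwists.result K).2.1 D h.1).1⟩⟩

theorem gd_iff [IsCyclotomicExtension {3} ℚ K] (D : 𝓞 K) :
    Unit3 D ↔ Pool.Agent.U693.EisK.Gd3 D := unit_iff D

theorem result (K : Type) [Field K] [NumberField K] [IsCyclotomicExtension {3} ℚ K] :
    (∀ q : 𝓞 K, PrimaryPrime q → ¬ (9 : ℤ) ∣ Algebra.norm ℤ q - 1 → Unit3 q) ∧
    ∀ D : 𝓞 K, InClass D → FiniteAndTrivial D →
      -- finite sets
      (∀ (k : ℕ) (S : Finset (𝓞 K)), 3 ∣ k → (∀ q ∈ S, PrimaryPrime q ∧ ¬ CubeMod q D) →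
        3 ^ (3 * k + omega D + 1) ≤ S.card →
        S.card.choose k ≤ (3 ^ (3 * k + omega D + 1)).choose k *
          ((S.powersetCard k).filter fun A => Unit3 (D * ∏ q ∈ A, q)).card) ∧
      -- infinite sets
      (∀ S : Set (𝓞 K), (∀ q ∈ S, PrimaryPrime q) →
        ((∃ T ⊆ S, T.Infinite ∧ ∀ A : Finset (𝓞 K), (A : Set (𝓞 K)) ⊆ T → 3 ∣ A.card →
          Unit3 (D * ∏ q ∈ A, q)) ↔ {q ∈ S | ¬ CubeMod q D}.Infinite) ∧
        ((∃ T ⊆ S, T.Infinite ∧ ∀ A : Finset (𝓞 K), (A : Set (𝓞 K)) ⊆ T → 3 ∣ A.card →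
          InClass (D * ∏ q ∈ A, q) ∧ FiniteAndTrivial (D * ∏ q ∈ A, q)) ↔
            {q ∈ S | ¬ CubeMod q D}.Infinite)) := by
  obtain ⟨⟨j, hj⟩, -⟩ := Pool.Agent.Y455.CTK.jex K
  refine ⟨fun q hq hN => (unit_iff q).2 (Pool.Agent.U693.EisK.prime_K j hj hq hN),
    fun D hD hT => ⟨fun k S hk hS hc => ?_, fun S hS => ?_⟩⟩
  · simp only [gd_iff]
    exact Pool.Agent.U693.EisK.fin_K j hj ⟨hD, hT⟩ hk S hS hc
  · have h := Pool.Agent.U693.EisK.inf_K j hj ⟨hD, hT⟩ S hS
    refine ⟨?_, h⟩
    simp only [unit_iff]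
    exact h

end Pool.Agent.Results.MP_e996df_nt.ThreePartArbitraryPrimeSets
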